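import Pool.Agent.Helper57.NX.Defs

/-!
# NX-4: the abstract PET elimination process terminates after a bounded number of steps
-/

set_option autoImplicit false

open Finset

namespace Pool.Agent.Helper57.NX

section Pet

variable {Φ : Type} [AddCommGroup Φ]

theorem mem_petNext (V : ℕ → AddSubgroup Φ) (τ : ℕ → Φ →+ Φ) (R : ℕ) (q : Φ) (h : ℕ)
    (Q : List Φ) (x : Φ) :
    x ∈ petNext V τ R q h Q ↔ x ∉ V R ∧ ∃ p ∈ Q, x = p - q ∨ x = τ h p - q := by
  classical
  unfold petNext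
  simp only [List.mem_filter, List.mem_append, List.mem_map, decide_eq_true_eq]
  constructor
  · rintro ⟨h1 | h1, h2⟩
    · obtain ⟨p, hp, rfl⟩ := h1
      exact ⟨h2, p, hp, Or.inl rfl⟩
    · obtain ⟨p, hp, rfl⟩ := h1
      exact ⟨h2, p, hp, Or.inr rfl⟩
  · rintro ⟨h2, p, hp, h1 | h1⟩
    · exact ⟨Or.inl ⟨p, hp, h1.symm⟩, h2⟩
    · exact ⟨Or.inr ⟨p, hp, h1.symm⟩, h2⟩

theorem length_petNext (V : ℕ → AddSubgroup Φ) (τ : ℕ → Φ →+ Φ) (R : ℕ) (q : Φ) (h : ℕ)
    (Q : List Φ) : (petNext V τ R q h Q).length ≤ 2 * Q.length := by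
  classical
  unfold petNext
  refine (List.length_filter_le _ _).trans ?_
  simp only [List.length_append, List.length_map]
  omega

open Classical in
/-- the classes modulo `V (b+1)` of the elements of `Q` of level `b` -/
noncomputable def petCls (V : ℕ → AddSubgroup Φ) (Q : List Φ) (b : ℕ) :
    Finset (Φ ⧸ V (b + 1)) :=
  (Q.toFinset.filter (fun p => p ∈ V b ∧ p ∉ V (b + 1))).image
    (fun p => (QuotientAddGroup.mk p : Φ ⧸ V (b + 1)))

theorem mem_petCls (V : ℕ → AddSubgroup Φ) (Q : List Φ) (b : ℕ) (x : Φ ⧸ V (b + 1)) :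
    x ∈ petCls V Q b ↔
      ∃ p ∈ Q, p ∈ V b ∧ p ∉ V (b + 1) ∧ (QuotientAddGroup.mk p : Φ ⧸ V (b + 1)) = x := by
  classical
  unfold petCls
  simp only [Finset.mem_image, Finset.mem_filter, List.mem_toFinset]
  constructor
  · rintro ⟨p, ⟨h1, h2, h3⟩, h4⟩
    exact ⟨p, h1, h2, h3, h4⟩
  · rintro ⟨p, h1, h2, h3, h4⟩
    exact ⟨p, ⟨h1, h2, h3⟩, h4⟩

theorem card_petCls_le (V : ℕ → AddSubgroup Φ) (Q : List Φ) (b : ℕ) :
    (petCls V Q b).card ≤ Q.length := by
  classical
  unfold petCls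
  exact Finset.card_image_le.trans ((Finset.card_filter_le _ _).trans (List.toFinset_card_le Q))

theorem Steps_succ (V : ℕ → AddSubgroup Φ) (τ : ℕ → Φ →+ Φ) (R : ℕ) :
    ∀ (ν : ℕ) (Q : List Φ), Steps V τ R ν Q → Steps V τ R (ν + 1) Q := by
  intro ν
  induction ν with
  | zero =>
    intro Q hQ
    exact Or.inl hQ
  | succ ν ih =>
    intro Q hQ
    rcases hQ with hQ | ⟨q, hq, hQ⟩
    · exact Or.inl hQ
    · exact Or.inr ⟨q, hq, fun h => ih _ (hQ h)⟩

theorem Steps_mono (V : ℕ → AddSubgroup Φ) (τ : ℕ → Φ →+ Φ) (R : ℕ) {ν ν' : ℕ} (hν : ν ≤ ν')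
    (Q : List Φ) (h : Steps V τ R ν Q) : Steps V τ R ν' Q := by
  induction ν', hν using Nat.le_induction with
  | base => exact h
  | succ n _ ih => exact Steps_succ V τ R n Q ih

/-- the pivot argument for the membership -/
theorem pet_mem_iff (V : ℕ → AddSubgroup Φ) (τ : ℕ → Φ →+ Φ) (hV0 : V 0 = ⊤) (hV : Antitone V)
    (hτ : ∀ a h, ∀ p ∈ V a, τ h p - p ∈ V (a + 1)) (q : Φ) (h a : ℕ) (hq : q ∈ V a) (p : Φ) :
    ∀ b, b ≤ a → τ h p - q ∈ V b → p ∈ V b := by
  intro b
  induction b with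
  | zero =>
    intro _ _
    rw [hV0]; trivial
  | succ b ih =>
    intro hb hp
    have h1 : p ∈ V b := ih (by omega) (hV (Nat.le_succ b) hp)
    have h2 := hτ b h p h1
    have h3 : q ∈ V (b + 1) := hV hb hq
    have h4 : p = (τ h p - q) + q - (τ h p - p) := by abel
    rw [h4]
    exact (V (b + 1)).sub_mem ((V (b + 1)).add_mem hp h3) h2

theorem pet_cls_eq (V : ℕ → AddSubgroup Φ) (τ : ℕ → Φ →+ Φ) (R : ℕ) (hV0 : V 0 = ⊤)
    (hV : Antitone V)
    (hτ : ∀ a h, ∀ p ∈ V a, τ h p - p ∈ V (a + 1)) (q : Φ) (h a : ℕ) (hq : q ∈ V a)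
    (haR : a + 1 ≤ R) (Q : List Φ) (b : ℕ) (hb : b < a) :
    petCls V (petNext V τ R q h Q) b = petCls V Q b := by
  have hqb : q ∈ V (b + 1) := hV hb hq
  have hqb' : q ∈ V b := hV hb.le hq
  ext x
  rw [mem_petCls, mem_petCls]
  constructor
  · rintro ⟨p', hp', hb1, hb2, hx⟩
    rw [mem_petNext] at hp'
    obtain ⟨_, p, hp, hc | hc⟩ := hp'
    · subst hc
      refine ⟨p, hp, ?_, ?_, ?_⟩
      · have := (V b).add_mem hb1 hqb'
        simpa using this
      · intro hh
        exact hb2 ((V (b + 1)).sub_mem hh hqb)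
      · rw [← hx, QuotientAddGroup.eq]
        have : -p + (p - q) = -q := by abel
        rw [this]
        exact (V (b + 1)).neg_mem hqb
    · subst hc
      have hpb : p ∈ V b := pet_mem_iff V τ hV0 hV hτ q h a hq p b hb.le hb1
      have h2 := hτ b h p hpb
      refine ⟨p, hp, hpb, ?_, ?_⟩
      · intro hh
        apply hb2
        have h4 : τ h p - q = (τ h p - p) + p - q := by abel
        rw [h4]
        exact (V (b + 1)).sub_mem ((V (b + 1)).add_mem h2 hh) hqb
      · rw [← hx, QuotientAddGroup.eq]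
        have : -p + (τ h p - q) = (τ h p - p) - q := by abel
        rw [this]
        exact (V (b + 1)).sub_mem h2 hqb
  · rintro ⟨p, hp, hb1, hb2, hx⟩
    have hn : p - q ∉ V (b + 1) := by
      intro hh
      apply hb2
      have := (V (b + 1)).add_mem hh hqb
      simpa using this
    refine ⟨p - q, ?_, (V b).sub_mem hb1 hqb', hn, ?_⟩
    · rw [mem_petNext]
      exact ⟨fun hh => hn (hV (by omega) hh), p, hp, Or.inl rfl⟩
    · rw [← hx, QuotientAddGroup.eq]
      have : -(p - q) + p = q := by abel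
      rw [this]
      exact hqb

theorem pet_cls_lt (V : ℕ → AddSubgroup Φ) (τ : ℕ → Φ →+ Φ) (R : ℕ) (hV0 : V 0 = ⊤)
    (hV : Antitone V)
    (hτ : ∀ a h, ∀ p ∈ V a, τ h p - p ∈ V (a + 1)) (q : Φ) (h a : ℕ) (hq : q ∈ V a)
    (Q : List Φ) (hqQ : q ∈ Q) (hmax : ∀ p ∈ Q, p ∉ V (a + 1)) :
    (petCls V (petNext V τ R q h Q) a).card < (petCls V Q a).card := by
  classical
  set c : Φ ⧸ V (a + 1) := QuotientAddGroup.mk q with hc
  have hcQ : c ∈ petCls V Q a := by
    rw [mem_petCls]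
    exact ⟨q, hqQ, hq, hmax q hqQ, rfl⟩
  have hsub : petCls V (petNext V τ R q h Q) a ⊆
      ((petCls V Q a).erase c).image (fun x => x - c) := by
    intro x hx
    rw [mem_petCls] at hx
    obtain ⟨p', hp', hb1, hb2, hx⟩ := hx
    rw [mem_petNext] at hp'
    obtain ⟨_, p, hp, hcc⟩ := hp'
    have hpa : p ∈ V a := by
      rcases hcc with hcc | hcc
      · subst hcc
        have := (V a).add_mem hb1 hq
        simpa using this
      · subst hcc
        exact pet_mem_iff V τ hV0 hV hτ q h a hq p a le_rfl hb1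
    have h2 := hτ a h p hpa
    have hxp : x = QuotientAddGroup.mk p - c := by
      rw [← hx, hc, ← QuotientAddGroup.mk_sub, QuotientAddGroup.eq]
      rcases hcc with hcc | hcc
      · subst hcc
        have : -(p - q) + (p - q) = 0 := by abel
        rw [this]
        exact (V (a + 1)).zero_mem
      · subst hcc
        have : -(τ h p - q) + (p - q) = -(τ h p - p) := by abel
        rw [this]
        exact (V (a + 1)).neg_mem h2
    rw [Finset.mem_image]
    refine ⟨QuotientAddGroup.mk p, ?_, hxp.symm⟩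
    rw [Finset.mem_erase, mem_petCls]
    refine ⟨?_, p, hp, hpa, hmax p hp, rfl⟩
    intro heq
    rw [heq, sub_self] at hxp
    rw [← hx] at hxp
    rw [QuotientAddGroup.eq_zero_iff] at hxp
    exact hb2 hxp
  calc (petCls V (petNext V τ R q h Q) a).card
      ≤ (((petCls V Q a).erase c).image (fun x => x - c)).card := Finset.card_le_card hsub
    _ ≤ ((petCls V Q a).erase c).card := Finset.card_image_le
    _ < (petCls V Q a).card := Finset.card_erase_lt_of_mem hcQ

end Pet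

/-- the bound for lists with a given vector of class numbers -/
theorem pet_vec (R : ℕ) : ∀ (n : Lex (Fin R → ℕ)) (s : ℕ), ∃ ν : ℕ, ∀ (Φ : Type) [AddCommGroup Φ]
    (V : ℕ → AddSubgroup Φ) (τ : ℕ → Φ →+ Φ), V 0 = ⊤ → Antitone V →
    (∀ a h, ∀ p ∈ V a, τ h p - p ∈ V (a + 1)) →
    ∀ Q : List Φ, Q.length ≤ s → (∀ p ∈ Q, p ∉ V R) →
      (∀ i : Fin R, (petCls V Q i).card = ofLex n i) → Steps V τ R ν Q := by
  intro n
  induction n using WellFoundedLT.induction with
  | ind n ih =>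
  intro s
  classical
  -- the finitely many smaller vectors
  let F : Finset (Lex (Fin R → ℕ)) :=
    ((Fintype.piFinset fun _ : Fin R => Finset.range (2 * s + 1)).image toLex).filter (· < n)
  have hF : ∀ m ∈ F, m < n := fun m hm => (Finset.mem_filter.mp hm).2
  let g : Lex (Fin R → ℕ) → ℕ := fun m =>
    if hm : m < n then (ih m hm (2 * s)).choose else 0
  refine ⟨F.sup g + 1, ?_⟩
  intro Φ _ V τ hV0 hV hτ Q hQs hQR hQn
  by_cases hQ : Q = []
  · exact Or.inl hQ
  right
  -- the pivot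
  let P : ℕ → Prop := fun a => ∃ p ∈ Q, p ∈ V a
  obtain ⟨p0, hp0⟩ := List.exists_mem_of_ne_nil Q hQ
  have hP0 : P 0 := ⟨p0, hp0, by rw [hV0]; trivial⟩
  set a := Nat.findGreatest P R with ha
  have hPa : P a := Nat.findGreatest_spec (Nat.zero_le R) hP0
  have haR : a ≤ R := Nat.findGreatest_le R
  have haR' : a < R := by
    rcases lt_or_eq_of_le haR with h | h
    · exact h
    · exfalso
      obtain ⟨p, hp, hpa⟩ := hPa
      rw [h] at hpa
      exact hQR p hp hpa
  have hmax : ∀ p ∈ Q, p ∉ V (a + 1) := by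
    intro p hp hpa
    have : a + 1 ≤ a := Nat.le_findGreatest (P := P) (show a + 1 ≤ R from haR') ⟨p, hp, hpa⟩
    omega
  obtain ⟨q, hq, hqa⟩ := hPa
  refine ⟨q, hq, ?_⟩
  intro h
  set Q' := petNext V τ R q h Q with hQ'
  have hlen : Q'.length ≤ 2 * s := (length_petNext V τ R q h Q).trans (by omega)
  let m : Lex (Fin R → ℕ) := toLex fun i => (petCls V Q' i).card
  have hmn : m < n := by
    refine ⟨⟨a, haR'⟩, ?_, ?_⟩
    · intro j hj
      have hj' : (j : ℕ) < a := hj
      show (petCls V Q' j).card = ofLex n j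
      rw [← hQn j, hQ', pet_cls_eq V τ R hV0 hV hτ q h a hqa haR' Q j hj']
    · show (petCls V Q' a).card < ofLex n ⟨a, haR'⟩
      rw [← hQn ⟨a, haR'⟩]
      exact pet_cls_lt V τ R hV0 hV hτ q h a hqa Q hq hmax
  have hmF : m ∈ F := by
    refine Finset.mem_filter.mpr ⟨?_, hmn⟩
    refine Finset.mem_image.mpr ⟨fun i => (petCls V Q' i).card, ?_, rfl⟩
    rw [Fintype.mem_piFinset]
    intro i
    rw [Finset.mem_range]
    have := card_petCls_le V Q' i
    omega
  have hg : g m = (ih m hmn (2 * s)).choose := by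
    show (if hm : m < n then (ih m hm (2 * s)).choose else 0) = _
    rw [dif_pos hmn]
  have hle : g m ≤ F.sup g := Finset.le_sup (f := g) hmF
  refine Steps_mono V τ R hle Q' ?_
  rw [hg]
  refine (ih m hmn (2 * s)).choose_spec Φ V τ hV0 hV hτ Q' hlen ?_ ?_
  · intro p hp
    rw [hQ', mem_petNext] at hp
    exact hp.1
  · intro i
    rfl

/-- The elimination process terminates, the number of steps depending only on `R` and the
length of the list. -/
theorem pet_terminates (R s : ℕ) : ∃ ν : ℕ, ∀ (Φ : Type) [AddCommGroup Φ]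
    (V : ℕ → AddSubgroup Φ) (τ : ℕ → Φ →+ Φ), V 0 = ⊤ → Antitone V →
    (∀ a h, ∀ p ∈ V a, τ h p - p ∈ V (a + 1)) →
    ∀ Q : List Φ, Q.length ≤ s → (∀ p ∈ Q, p ∉ V R) → Steps V τ R ν Q := by
  classical
  let F : Finset (Lex (Fin R → ℕ)) :=
    (Fintype.piFinset fun _ : Fin R => Finset.range (s + 1)).image toLex
  let g : Lex (Fin R → ℕ) → ℕ := fun m => (pet_vec R m s).choose
  refine ⟨F.sup g, ?_⟩
  intro Φ _ V τ hV0 hV hτ Q hQs hQR
  let m : Lex (Fin R → ℕ) := toLex fun i => (petCls V Q i).card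
  have hmF : m ∈ F := by
    refine Finset.mem_image.mpr ⟨fun i => (petCls V Q i).card, ?_, rfl⟩
    rw [Fintype.mem_piFinset]
    intro i
    rw [Finset.mem_range]
    have := card_petCls_le V Q i
    omega
  have hle : g m ≤ F.sup g := Finset.le_sup (f := g) hmF
  refine Steps_mono V τ R hle Q ?_
  exact (pet_vec R m s).choose_spec Φ V τ hV0 hV hτ Q hQs hQR (fun i => rfl)

end Pool.Agent.Helper57.NX
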